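import Mathlib

set_option autoImplicit false

namespace Pool.Agent.Results.MP_63f2bb_co.Heawood

section defs

variable {V : Type*} (G : SimpleGraph V)

/-- A subgroup of the automorphism group of `G` is arc-transitive: it is transitive on ordered
pairs of adjacent vertices. -/
def ArcTransitive (S : Subgroup (G ≃g G)) : Prop :=
  ∀ i j i' j' : V, G.Adj i j → G.Adj i' j' → ∃ σ ∈ S, σ i = i' ∧ σ j = j'

/-- The subspace `W` of `ℝ^V` is invariant under `S` acting by `(σ x)_{σ i} = x_i`. -/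
def Invariant (S : Subgroup (G ≃g G)) (W : Submodule ℝ (V → ℝ)) : Prop :=
  ∀ σ ∈ S, ∀ x ∈ W, ∀ y : V → ℝ, (∀ i, y (σ i) = x i) → y ∈ W

/-- `W` is an irreducible `S`-invariant subspace: nonzero, invariant, and without invariant
subspaces other than `0` and `W`. -/
def IsIrreducible (S : Subgroup (G ≃g G)) (W : Submodule ℝ (V → ℝ)) : Prop :=
  W ≠ ⊥ ∧ Invariant G S W ∧ ∀ U : Submodule ℝ (V → ℝ), U ≤ W → Invariant G S U → U = ⊥ ∨ U = W

end defs

/-- The Heawood graph. -/
def H : SimpleGraph (ZMod 7 × Bool) where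
  Adj v w := (v.2 = false ∧ w.2 = true ∧ (w.1 - v.1 = 1 ∨ w.1 - v.1 = 2 ∨ w.1 - v.1 = 4)) ∨
    (v.2 = true ∧ w.2 = false ∧ (v.1 - w.1 = 1 ∨ v.1 - w.1 = 2 ∨ v.1 - w.1 = 4))
  symm := ⟨fun _ _ h => by
    rcases h with h | h
    · exact Or.inr ⟨h.2.1, h.1, h.2.2⟩
    · exact Or.inl ⟨h.2.1, h.1, h.2.2⟩⟩
  loopless := ⟨fun _ h => by
    rcases h with h | h
    · simp [h.1] at h
    · simp [h.1] at h⟩

instance : DecidableRel H.Adj := fun v w => by unfold H; infer_instance

/-- Translation. -/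
def tr : H ≃g H where
  toFun v := (v.1 + 1, v.2)
  invFun v := (v.1 - 1, v.2)
  left_inv v := by simp
  right_inv v := by simp
  map_rel_iff' {v w} := by
    simp only [Equiv.coe_fn_mk, H, add_sub_add_right_eq_sub]

/-- Multiplication by the primitive root `3`, exchanging the sides. -/
def rt : H ≃g H where
  toFun v := (3 * v.1, !v.2)
  invFun v := (5 * v.1, !v.2)
  left_inv v := by revert v; decide
  right_inv v := by revert v; decide
  map_rel_iff' {v w} := by revert v w; decide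

lemma tr_pow (i : ℕ) (v : ZMod 7 × Bool) : (tr ^ i) v = (v.1 + i, v.2) := by
  induction i generalizing v with
  | zero => simp
  | succ i ih =>
    rw [pow_succ, RelIso.mul_apply, ih]
    change (v.1 + 1 + (i : ZMod 7), v.2) = _
    push_cast
    rw [add_assoc, add_comm 1]

lemma rt_pow (k : ℕ) (v : ZMod 7 × Bool) : (rt ^ k) v = (3 ^ k * v.1, (Nat.bodd k).xor v.2) := by
  induction k generalizing v with
  | zero => simp
  | succ k ih =>
    rw [pow_succ, RelIso.mul_apply, ih]
    change (3 ^ k * (3 * v.1), (Nat.bodd k).xor (!v.2)) = _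
    rw [pow_succ, mul_assoc]
    congr 1
    simp

/-- The group: automorphisms respecting the pairing `(x, false) ↔ (x, true)`. -/
def Sg : Subgroup (H ≃g H) where
  carrier := {σ | ∀ v w, (σ v).1 = (σ w).1 ↔ v.1 = w.1}
  mul_mem' {a b} ha hb v w := by
    rw [RelIso.mul_apply, RelIso.mul_apply, ha, hb]
  one_mem' v w := Iff.rfl
  inv_mem' {a} ha v w := by
    have := ha (a⁻¹ v) (a⁻¹ w)
    rw [← RelIso.mul_apply, ← RelIso.mul_apply] at this
    simpa using this.symm

lemma tr_mem : tr ∈ Sg := by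
  intro v w
  change v.1 + 1 = w.1 + 1 ↔ _
  exact add_left_inj _

lemma rt_mem : rt ∈ Sg := by
  intro v w
  revert v w
  decide

lemma arc : ArcTransitive H Sg := by
  have key : ∀ v w : ZMod 7 × Bool, H.Adj v w → ∃ i : Fin 7, ∃ k : Fin 6,
      ((3 : ZMod 7) ^ (k : ℕ) * (v.1 + (i : ℕ)), (Nat.bodd k).xor v.2) = (0, false) ∧
      ((3 : ZMod 7) ^ (k : ℕ) * (w.1 + (i : ℕ)), (Nat.bodd k).xor w.2) = (1, true) := by
    decide
  have key2 : ∀ v w : ZMod 7 × Bool, H.Adj v w → ∃ σ ∈ Sg, σ v = (0, false) ∧ σ w = (1, true) := by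
    intro v w h
    obtain ⟨i, k, h1, h2⟩ := key v w h
    refine ⟨rt ^ (k : ℕ) * tr ^ (i : ℕ), Sg.mul_mem (Sg.pow_mem rt_mem _) (Sg.pow_mem tr_mem _),
      ?_, ?_⟩
    · rw [RelIso.mul_apply, tr_pow, rt_pow]; exact h1
    · rw [RelIso.mul_apply, tr_pow, rt_pow]; exact h2
  intro i j i' j' h h'
  obtain ⟨σ, hσ, h1, h2⟩ := key2 i j h
  obtain ⟨τ, hτ, h3, h4⟩ := key2 i' j' h'
  refine ⟨τ⁻¹ * σ, Sg.mul_mem (Sg.inv_mem hτ) hσ, ?_, ?_⟩
  · rw [RelIso.mul_apply, h1, ← h3]; exact RelIso.inv_apply_self _ _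
  · rw [RelIso.mul_apply, h2, ← h4]; exact RelIso.inv_apply_self _ _

/-- The subspace of vectors `(f, f)` with `∑ f = 0`. -/
def W : Submodule ℝ (ZMod 7 × Bool → ℝ) where
  carrier := {u | (∀ x, u (x, true) = u (x, false)) ∧ ∑ x, u (x, false) = 0}
  add_mem' {a b} ha hb := ⟨fun x => by simp [ha.1 x, hb.1 x], by
    simp only [Pi.add_apply, Finset.sum_add_distrib, ha.2, hb.2, add_zero]⟩
  zero_mem' := ⟨fun _ => rfl, by simp⟩
  smul_mem' c a ha := ⟨fun x => by simp [ha.1 x], by
    simp only [Pi.smul_apply, smul_eq_mul, ← Finset.mul_sum, ha.2, mul_zero]⟩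

lemma mem_W {u : ZMod 7 × Bool → ℝ} :
    u ∈ W ↔ (∀ x, u (x, true) = u (x, false)) ∧ ∑ x, u (x, false) = 0 := Iff.rfl

lemma W_fst {u : ZMod 7 × Bool → ℝ} (hu : u ∈ W) (v w : ZMod 7 × Bool) (h : v.1 = w.1) :
    u v = u w := by
  obtain ⟨x, s⟩ := v
  obtain ⟨y, t⟩ := w
  simp only at h
  subst h
  cases s <;> cases t <;> simp [hu.1]

lemma W_inv : Invariant H Sg W := by
  intro σ hσ x hx y hy
  have hfst : ∀ v w : ZMod 7 × Bool, v.1 = w.1 → y v = y w := by
    intro v w h
    obtain ⟨v', rfl⟩ := σ.surjective v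
    obtain ⟨w', rfl⟩ := σ.surjective w
    rw [hy, hy]
    exact W_fst hx _ _ ((hσ v' w').mp h)
  refine ⟨fun a => hfst _ _ rfl, ?_⟩
  have h1 : ∑ v, y v = ∑ v, x v := by
    rw [← Equiv.sum_comp σ.toEquiv]
    exact Finset.sum_congr rfl fun v _ => hy v
  have h2 : ∑ v, x v = 0 := by
    rw [Fintype.sum_prod_type]
    have : ∀ a : ZMod 7, ∑ b : Bool, x (a, b) = 2 * x (a, false) := by
      intro a
      rw [Fintype.sum_bool, hx.1]; ring
    rw [Finset.sum_congr rfl fun a _ => this a, ← Finset.mul_sum, hx.2, mul_zero]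
  have h3 : ∑ v, y v = 2 * ∑ a, y (a, false) := by
    rw [Fintype.sum_prod_type, Finset.mul_sum]
    apply Finset.sum_congr rfl
    intro a _
    rw [Fintype.sum_bool, hfst (a, true) (a, false) rfl]; ring
  have h4 : 2 * ∑ a, y (a, false) = 0 := by rw [← h3, h1, h2]
  linarith

lemma U_tr {U : Submodule ℝ (ZMod 7 × Bool → ℝ)} (hU : Invariant H Sg U)
    {u : ZMod 7 × Bool → ℝ} (hu : u ∈ U) (a : ZMod 7) :
    (fun v : ZMod 7 × Bool => u (v.1 + a, v.2)) ∈ U := by
  refine hU (tr ^ (-a).val) (Sg.pow_mem tr_mem _) u hu _ fun i => ?_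
  rw [tr_pow]
  simp

lemma U_rt {U : Submodule ℝ (ZMod 7 × Bool → ℝ)} (hU : Invariant H Sg U)
    {u : ZMod 7 × Bool → ℝ} (hu : u ∈ U) (k : ℕ) :
    (fun v : ZMod 7 × Bool => u ((rt ^ k) v)) ∈ U := by
  refine hU (rt ^ k)⁻¹ (Sg.inv_mem (Sg.pow_mem rt_mem _)) u hu _ fun i => ?_
  rw [RelIso.apply_inv_self]

lemma sum7 (f : ZMod 7 → ℝ) :
    ∑ x, f x = f 0 + f 1 + f 2 + f 3 + f 4 + f 5 + f 6 := Fin.sum_univ_seven f

lemma orbit_sum (f : ZMod 7 → ℝ) (x : ZMod 7) (hx : x ≠ 0) :
    ∑ k ∈ Finset.range 6, f (3 ^ k * x) = ∑ y, f y - f 0 := by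
  have h1 : ∀ x : ZMod 7, x ≠ 0 →
      (Finset.range 6).image (fun k : ℕ => 3 ^ k * x) = Finset.univ.erase 0 := by decide
  have h2 : ∀ x : ZMod 7, x ≠ 0 → ∀ k ∈ Finset.range 6, ∀ k' ∈ Finset.range 6,
      3 ^ k * x = 3 ^ k' * x → k = k' := by decide
  rw [← Finset.sum_image (f := f) (g := fun k : ℕ => 3 ^ k * x) (s := Finset.range 6)
    (fun a ha b hb => h2 x hx a ha b hb), h1 x hx]
  rw [← Finset.add_sum_erase Finset.univ f (Finset.mem_univ 0)]
  ring

/-- The basic vector `7 δ_0 - 1`. -/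
def e0 : ZMod 7 × Bool → ℝ := fun v => if v.1 = 0 then 6 else -1

lemma e0_mem {U : Submodule ℝ (ZMod 7 × Bool → ℝ)} (hUW : U ≤ W) (hU : Invariant H Sg U)
    (hne : U ≠ ⊥) : e0 ∈ U := by
  obtain ⟨u, hu, hu0⟩ := (Submodule.ne_bot_iff U).mp hne
  obtain ⟨v₀, hv₀⟩ : ∃ v, u v ≠ 0 := by
    by_contra hcon
    push Not at hcon
    exact hu0 (funext hcon)
  set u' : ZMod 7 × Bool → ℝ := fun v => u (v.1 + v₀.1, v.2) with hu'
  have hu'U : u' ∈ U := U_tr hU hu v₀.1
  have hu'W := hUW hu'U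
  have hc : u' (0, false) ≠ 0 := by
    have : u' (0, false) = u v₀ := by
      simp only [hu', zero_add]
      exact W_fst (hUW hu) _ _ rfl
    rw [this]; exact hv₀
  have hg : (∑ k ∈ Finset.range 6, fun v : ZMod 7 × Bool => u' ((rt ^ k) v)) ∈ U :=
    U.sum_mem fun k _ => U_rt hU hu'U k
  have hsum := hu'W.2
  have hval : (∑ k ∈ Finset.range 6, fun v : ZMod 7 × Bool => u' ((rt ^ k) v)) =
      u' (0, false) • e0 := by
    funext v
    rw [Finset.sum_apply]
    have h1 : ∀ k, u' ((rt ^ k) v) = u' (3 ^ k * v.1, false) := by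
      intro k
      rw [rt_pow]
      exact W_fst hu'W _ _ rfl
    simp only [h1]
    obtain ⟨x, b⟩ := v
    simp only [Pi.smul_apply, smul_eq_mul, e0]
    by_cases hx : x = 0
    · subst hx
      simp
      ring
    · rw [orbit_sum (fun y => u' (y, false)) x hx, hsum]
      simp [hx]
  rw [hval] at hg
  have := U.smul_mem (u' (0, false))⁻¹ hg
  rwa [smul_smul, inv_mul_cancel₀ hc, one_smul] at this

lemma W_irr : IsIrreducible H Sg W := by
  refine ⟨?_, W_inv, ?_⟩
  · rw [Submodule.ne_bot_iff]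
    refine ⟨e0, ⟨fun _ => rfl, ?_⟩, ?_⟩
    · have h1 : ∀ x : ZMod 7, e0 (x, false) = (if x = 0 then (7 : ℝ) else 0) - 1 := by
        intro x
        simp only [e0]
        split_ifs <;> norm_num
      rw [Finset.sum_congr rfl fun x _ => h1 x, Finset.sum_sub_distrib]
      simp
    · intro h
      have := congrFun h (0, false)
      simp [e0] at this
  · intro U hUW hU
    by_cases hne : U = ⊥
    · exact Or.inl hne
    right
    apply le_antisymm hUW
    intro w hw
    have he := e0_mem hUW hU hne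
    have hrep : w = ∑ a : ZMod 7, (w (a, false) / 7) • (fun v : ZMod 7 × Bool => e0 (v.1 + -a, v.2)) := by
      funext v
      rw [Finset.sum_apply]
      simp only [Pi.smul_apply, smul_eq_mul, e0]
      have h1 : ∀ a : ZMod 7, (w (a, false) / 7) * (if v.1 + -a = 0 then (6 : ℝ) else -1) =
          (if a = v.1 then w (a, false) else 0) - w (a, false) / 7 := by
        intro a
        by_cases h : a = v.1
        · subst h; simp; ring
        · have h' : ¬ (v.1 + -a = 0) := by
            intro h0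
            exact h (by rw [add_neg_eq_zero] at h0; exact h0.symm)
          simp [h, h']
      rw [Finset.sum_congr rfl fun a _ => h1 a, Finset.sum_sub_distrib, ← Finset.sum_div, hw.2]
      simp only [Finset.sum_ite_eq', Finset.mem_univ, if_true, zero_div, sub_zero]
      exact W_fst hw _ _ rfl
    rw [hrep]
    exact U.sum_mem fun a _ => U.smul_mem _ (U_tr hU he (-a))

lemma not_eigen (μ : ℝ) : ¬ W ≤ Module.End.eigenspace (Matrix.toLin' (H.adjMatrix ℝ)) μ := by
  intro h
  set w : ZMod 7 × Bool → ℝ := fun v => if v.1 = 0 then 1 else if v.1 = 1 then -1 else 0 with hw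
  have hwW : w ∈ W := ⟨fun _ => rfl, by
    have h1 : ∀ x : ZMod 7, w (x, false) = (if x = 0 then (1 : ℝ) else 0) -
        (if x = 1 then (1 : ℝ) else 0) := by
      intro x
      simp only [hw]
      by_cases h0 : x = 0
      · have h1 : x ≠ 1 := by rw [h0]; decide
        rw [if_pos h0, if_pos h0, if_neg h1]; norm_num
      · by_cases h1 : x = 1
        · rw [if_neg h0, if_neg h0, if_pos h1, if_pos h1]; norm_num
        · rw [if_neg h0, if_neg h0, if_neg h1, if_neg h1]; norm_num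
    rw [Finset.sum_congr rfl fun x _ => h1 x, Finset.sum_sub_distrib]
    simp⟩
  have h1 := Module.End.mem_eigenspace_iff.mp (h hwW)
  have h2 := congrFun h1 (5, false)
  rw [Matrix.toLin'_apply, SimpleGraph.adjMatrix_mulVec_apply] at h2
  have h3 : H.neighborFinset (5, false) = {(6, true), (0, true), (2, true)} := by decide
  rw [h3] at h2
  have n1 : (6 : ZMod 7) ≠ 0 := by decide
  have n2 : (6 : ZMod 7) ≠ 1 := by decide
  have n3 : (2 : ZMod 7) ≠ 0 := by decide
  have n4 : (2 : ZMod 7) ≠ 1 := by decide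
  have n5 : (5 : ZMod 7) ≠ 0 := by decide
  have n6 : (5 : ZMod 7) ≠ 1 := by decide
  rw [Finset.sum_insert (by decide), Finset.sum_insert (by decide), Finset.sum_singleton] at h2
  simp [hw, n1, n2, n3, n4, n5, n6] at h2

lemma conn : H.Connected := by
  have h1 : ∀ x : ZMod 7, H.Reachable (x, false) (x + 1, false) := by
    intro x
    have a1 : H.Adj (x, false) (x + 2, true) := by revert x; decide
    have a2 : H.Adj (x + 2, true) (x + 1, false) := by revert x; decide
    exact a1.reachable.trans a2.reachable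
  have h2 : ∀ n : ℕ, H.Reachable (0, false) ((n : ZMod 7), false) := by
    intro n
    induction n with
    | zero => simp
    | succ n ih =>
      push_cast
      exact ih.trans (h1 _)
  have h3 : ∀ x : ZMod 7, H.Reachable (0, false) (x, false) := by
    intro x
    have := h2 x.val
    rwa [ZMod.natCast_zmod_val] at this
  have h4 : ∀ v : ZMod 7 × Bool, H.Reachable (0, false) v := by
    rintro ⟨x, b⟩
    cases b
    · exact h3 x
    · have a1 : H.Adj (x, false) (x + 1, true) := by revert x; decide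
      have a2 : H.Adj (x - 1, false) (x, true) := by revert x; decide
      exact (h3 (x - 1)).trans a2.reachable
  exact ⟨fun v w => (h4 v).symm.trans (h4 w)⟩

/-- **Main result.** There are a connected graph `G`, an arc-transitive group `S` of automorphisms
and an `S`-irreducible subspace of `ℝ^V` that lies in no eigenspace of the adjacency matrix. -/
theorem result : ∃ (V : Type) (_ : Fintype V) (_ : DecidableEq V) (G : SimpleGraph V)
    (_ : DecidableRel G.Adj) (S : Subgroup (G ≃g G)) (W : Submodule ℝ (V → ℝ)),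
    G.Connected ∧ ArcTransitive G S ∧ IsIrreducible G S W ∧
      ∀ μ : ℝ, ¬ W ≤ Module.End.eigenspace (Matrix.toLin' (G.adjMatrix ℝ)) μ :=
  ⟨ZMod 7 × Bool, inferInstance, inferInstance, H, inferInstance, Sg, W, conn, arc, W_irr,
    not_eigen⟩

end Pool.Agent.Results.MP_63f2bb_co.Heawood
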